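import Pool.Agent.U742.GR.Main

/-!
Grouplessness, arithmetic hyperbolicity and lines.
-/

set_option autoImplicit false

set_option linter.unusedSectionVars false

open FF Pool.Agent.W603.LV Pool.Agent.W603.PV Pool.Agent.W602.GT Pool.Agent.Y190.BV
  Pool.Agent.Y190.GN Pool.Agent.Y190.AH Pool.Agent.Y190.QP Pool.Agent.Y190.AG
open LinearAlgebra.Projectivization

namespace Pool.Agent.U742.GR

variable {K : Type} [Field K] {N n m : ℕ} {ι κ : Type}

/-- If all lines in `V` are in `Z`, then the intersections of `V` with the linear subspaces of the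
variety of the vectors whose `m`-th powers are the values of a polynomial of degree at most `n` have
only finitely many points outside of `Z`. -/
def LinesInSections (a : Fin (N + 1) → K) (n m : ℕ) (F : ι → MvPolynomial (Fin (N + 1)) K)
    (G : κ → MvPolynomial (Fin (N + 1)) K) : Prop :=
  LineOff F G → ∀ e ζ, LinSp a n m e ζ → (Pts (secF a F e ζ) G).Finite

variable [IsAlgClosed K] [CharZero K]

theorem gm_of_rat {F : ι → MvPolynomial (Fin (N + 1)) K}
    {G : κ → MvPolynomial (Fin (N + 1)) K} (h : ∀ f : Fin (N + 1) → RatFunc K, MapOff F G f →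
      ∃ (c : RatFunc K) (x : Fin (N + 1) → K), ∀ i, f i = c * algebraMap K (RatFunc K) (x i)) :
    GmOff F G := by
  intro P hP t ht e
  by_contra hne
  have hinj : Function.Injective (algebraMap (Polynomial K) (RatFunc K)) :=
    RatFunc.algebraMap_injective K
  have hinf : Infinite K := inferInstance
  obtain ⟨c, x, hcx⟩ := h (fun i => algebraMap (Polynomial K) (RatFunc K) (P i)) (by
      refine ⟨fun h0 => ?_, fun e => ?_, e, ?_⟩
      · apply hP.ne t ht
        funext i
        have h1 : P i = 0 := hinj (by rw [map_zero]; exact congrFun h0 i)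
        rw [h1, Polynomial.eval_zero]
        rfl
      · obtain ⟨Q, hQ1, hQ2⟩ := val_poly P (F e)
        have h0 : Q = 0 := poly_zero fun t ht => by
          rw [hQ1]
          exact hP.mem t ht e
        rw [← hQ2, h0, map_zero]
      · obtain ⟨Q, hQ1, hQ2⟩ := val_poly P (G e)
        rw [← hQ2]
        intro h0
        apply hne
        have h1 : Q = 0 := hinj (by rw [map_zero]; exact h0)
        rw [← hQ1, h1, Polynomial.eval_zero])
  obtain ⟨l, hl⟩ := Function.ne_iff.1 (hP.ne t ht)
  have hxl : x l ≠ 0 := by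
    intro h0
    apply hl
    have h1 : P l = 0 := hinj (by
      rw [map_zero]
      have h2 := hcx l
      rw [h0, map_zero, mul_zero] at h2
      exact h2)
    change (P l).eval t = 0
    rw [h1, Polynomial.eval_zero]
  have hprop : ∀ i, P i * Polynomial.C (x l) = P l * Polynomial.C (x i) := by
    intro i
    apply hinj
    have h1 := hcx i
    have h2 := hcx l
    have h3 : ∀ y : K, algebraMap (Polynomial K) (RatFunc K) (Polynomial.C y) =
        algebraMap K (RatFunc K) y := by
      intro y
      rw [IsScalarTower.algebraMap_apply K (Polynomial K) (RatFunc K)]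
      rfl
    rw [map_mul, map_mul, h3, h3, h1, h2]
    ring
  obtain ⟨t1, t2, ht1, ht2, hli⟩ := hP.nonconst
  have hev : ∀ s i, (P i).eval s * x l = (P l).eval s * x i := by
    intro s i
    have h1 := congrArg (Polynomial.eval s) (hprop i)
    rwa [Polynomial.eval_mul, Polynomial.eval_mul, Polynomial.eval_C, Polynomial.eval_C] at h1
  have h1 := LinearIndependent.pair_iff.1 hli ((P l).eval t2) (-(P l).eval t1) (by
    funext i
    simp only [Pi.add_apply, Pi.smul_apply, smul_eq_mul, Pi.zero_apply]
    have h2 := hev t1 i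
    have h3 := hev t2 i
    apply mul_right_cancel₀ hxl
    linear_combination (P l).eval t2 * h2 - (P l).eval t1 * h3)
  apply hP.ne t2 ht2
  funext i
  have h2 := hev t2 i
  rw [h1.1, zero_mul] at h2
  exact (mul_eq_zero.1 h2).resolve_right hxl

theorem gm_of_genus {F : ι → MvPolynomial (Fin (N + 1)) K}
    {G : κ → MvPolynomial (Fin (N + 1)) K} (h : GenusOneOff F G) : GmOff F G :=
  gm_of_rat fun f hf => h (RatFunc K) (by
    rw [Pool.Agent.W619.PQ.canDeg_rational (x := (RatFunc.X : RatFunc K)) RatFunc.adjoin_X]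
    norm_num) f hf

theorem line_of_gm {F : ι → MvPolynomial (Fin (N + 1)) K}
    {G : κ → MvPolynomial (Fin (N + 1)) K} (hG : ∀ e, IsForm (G e)) (h : GmOff F G) :
    LineOff F G := by
  by_contra hcon
  obtain ⟨u, v, e, huv, he⟩ := exists_base hG hcon
  have huv' := line_left huv one_ne_zero (-1)
  have hinf : Infinite K := inferInstance
  have h1 := line_key (G := G e) (fun P hP t ht => h P hP t ht e) huv'
  rw [one_smul, neg_one_smul, neg_add_cancel_right] at h1
  exact he h1

/-- **Curves.** -/
theorem curves_main (hm : 2 ≤ m) (hN : 5 * n ≤ N) {a : Fin (N + 1) → K}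
    (ha : Function.Injective a) {F : ι → MvPolynomial (Fin (N + 1)) K}
    {G : κ → MvPolynomial (Fin (N + 1)) K} (hG : ∀ e, IsForm (G e))
    (hV : Cone F ⊆ PowVal a n m) (hS : LinesInSections a n m F G) :
    [GenusOneOff F G, GmOff F G, LineOff F G,
      ∀ e ζ, LinSp a n m e ζ → (Pts (secF a F e ζ) G).Finite].TFAE := by
  tfae_have 1 → 2 := gm_of_genus
  tfae_have 2 → 3 := line_of_gm hG
  tfae_have 3 → 4 := hS
  tfae_have 4 → 1 := by
    intro h
    rw [genus_red hm hN ha hV]
    intro e ζ hζ L _ _ _ _ f hf
    exact const_of_finite (h e ζ hζ) hf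
  tfae_finish

/-- **Points.** -/
theorem points_main (hm : 2 ≤ m) {a : Fin (N + 1) → K}
    (ha : Function.Injective a) {k0 : Subfield K} (hk : Moving k0 a n)
    {F : ι → MvPolynomial (Fin (N + 1)) K}
    {G : κ → MvPolynomial (Fin (N + 1)) K} (hG : ∀ e, IsForm (G e))
    (hV : Cone F ⊆ PowVal a n m) (hS : LinesInSections a n m F G) :
    [∀ T : Finset K, (FieldPts F G k0 T).Finite, ∀ T : Finset K, (RingPts F G T).Finite,
      LineOff F G].TFAE := by
  tfae_have 1 → 2 := fun h T => ring_of_field (h T)
  tfae_have 2 → 3 := line_of_ring hG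
  tfae_have 3 → 1 := by
    intro h
    rw [field_red hm ha hk hV]
    intro e ζ hζ T
    refine (hS h e ζ hζ).subset ?_
    rintro p ⟨x, h1, h2, -, h4⟩
    exact ⟨x, h1, h2, h4⟩
  tfae_finish

end Pool.Agent.U742.GR
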