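import Pool.Agent.U742.GR.Ins
import Pool.Agent.U742.WD.Main

/-!
Rational maps from special varieties, for instance from abelian varieties.
-/

set_option autoImplicit false

set_option linter.unusedSectionVars false

open FF Pool.Agent.W603.LV Pool.Agent.W603.PV Pool.Agent.W602.GT Pool.Agent.Y190.BV
  Pool.Agent.Y190.GN Pool.Agent.Y190.AH Pool.Agent.Y190.QP Pool.Agent.Y190.AG
open Pool.Agent.Y216.SV (hull_of_special)

namespace Pool.Agent.U742.GR

variable {K : Type} [Field K] {N n m : ℕ} {ι κ : Type}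

/-- The rational maps from special varieties (in the sense of Campana) to `V` are constant, or have
images in `Z`. -/
def SpecialOff (F : ι → MvPolynomial (Fin (N + 1)) K) (G : κ → MvPolynomial (Fin (N + 1)) K) :
    Prop :=
  ∀ (L : Type) [Field L] [Algebra K L] (w : ℕ), Algebra.trdeg K L = w →
    Special K L w (fun _ => False) → ∀ f : Fin (N + 1) → L, MapOff F G f →
      ∃ (c : L) (x : Fin (N + 1) → K), ∀ i, f i = c * algebraMap K L (x i)

variable [IsAlgClosed K] [CharZero K]

theorem special_red (hm : 2 ≤ m) (hN : 4 * n + (n + 1) ^ 2 < 2 * (N + 1)) {a : Fin (N + 1) → K}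
    (ha : Function.Injective a) {F : ι → MvPolynomial (Fin (N + 1)) K}
    {G : κ → MvPolynomial (Fin (N + 1)) K} (hV : Cone F ⊆ PowVal a n m) :
    SpecialOff F G ↔ ∀ e ζ, LinSp a n m e ζ → SpecialOff (secF a F e ζ) G := by
  have hn : n ≤ N := by nlinarith
  constructor
  · intro h e ζ _ L _ _ w hw hL f hf
    exact h L w hw hL f ⟨hf.1, sec_left hf.2.1, hf.2.2⟩
  · intro h L _ _ w hw hL f hf
    obtain ⟨q, c, G0, ζ, -, -, hG0, hdeg, hζ, hfq⟩ := hull_of_special hm hN ha hw hL hf.1
      (sub_ext (by rw [cone_buchi ha hn]; exact hV) hf.1 hf.2.1)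
    exact h q.natDegree ζ ⟨G0, hG0, hdeg, hζ⟩ L w hw hL f
      ⟨hf.1, sec_mem hf.2.1 le_rfl hfq, hf.2.2⟩

theorem special_iff (hm : 2 ≤ m) (hN : 4 * n + (n + 1) ^ 2 < 2 * (N + 1)) {a : Fin (N + 1) → K}
    (ha : Function.Injective a) {F : ι → MvPolynomial (Fin (N + 1)) K}
    {G : κ → MvPolynomial (Fin (N + 1)) K} (hG : ∀ e, IsForm (G e))
    (hV : Cone F ⊆ PowVal a n m) (hS : LinesInSections a n m F G) :
    SpecialOff F G ↔ LineOff F G := by
  constructor
  · intro h
    exact line_of_gm hG (gm_of_rat fun f hf => h (RatFunc K) 1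
      Pool.Agent.TH710.WH.trdeg_ratFunc Pool.Agent.TH710.WH.special_ratFunc f hf)
  · intro h
    rw [special_red hm hN ha hV]
    intro e ζ hζ L _ _ w _ _ f hf
    exact const_of_finite (hS h e ζ hζ) hf

end Pool.Agent.U742.GR
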