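import Pool.Agent.U742.GR.Fin

/-!
Cases in which the intersections with linear subspaces are finite or contain lines.
-/

set_option autoImplicit false

set_option linter.unusedSectionVars false

open FF Pool.Agent.W603.LV Pool.Agent.W603.PV Pool.Agent.W602.GT Pool.Agent.Y190.BV
  Pool.Agent.Y190.GN Pool.Agent.Y190.AH Pool.Agent.Y190.QP Pool.Agent.Y190.AG
open Pool.Agent.Y216.SV (pspan mem_pspan eq_of_nodes)
open Pool.Agent.U463.PG (SimpleOff data_off)
open LinearAlgebra.Projectivization

namespace Pool.Agent.U742.GR

variable {K : Type} [Field K] {N n m : ℕ} {ι κ : Type}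

/-- points of the sections -/
theorem sec_span {a : Fin (N + 1) → K} {F : ι → MvPolynomial (Fin (N + 1)) K} {e : ℕ}
    {ζ x : Fin (N + 1) → K} (h : ∀ z, val x (secF a F e ζ z) = 0) :
    ∃ q : Polynomial K, q.natDegree ≤ e ∧ ∀ i, x i = q.eval (a i) * ζ i := by
  classical
  apply mem_pspan
  by_contra hx
  obtain ⟨f, hfx, hf⟩ := Submodule.exists_dual_map_eq_bot_of_notMem hx inferInstance
  let l : Fin (N + 1) → K := fun i => f fun j => if i = j then 1 else 0
  have hfl : ∀ y : Fin (N + 1) → K, f y = ∑ i, l i * y i := by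
    intro y
    rw [LinearMap.pi_apply_eq_sum_univ f y]
    refine Finset.sum_congr rfl fun i _ => ?_
    rw [smul_eq_mul, mul_comm]
  have hl : ∀ q : Polynomial K, q.natDegree ≤ e → ∑ i, l i * (q.eval (a i) * ζ i) = 0 := by
    intro q hq
    rw [← hfl fun i => q.eval (a i) * ζ i]
    have h1 : (fun i => q.eval (a i) * ζ i) ∈ pspan a ζ e := by
      have h2 : (fun i => q.eval (a i) * ζ i) = ∑ j ∈ Finset.range (q.natDegree + 1),
          q.coeff j • fun i => a i ^ j * ζ i := by
        funext i
        rw [Finset.sum_apply, Polynomial.eval_eq_sum_range, Finset.sum_mul]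
        refine Finset.sum_congr rfl fun j _ => ?_
        rw [Pi.smul_apply, smul_eq_mul, mul_assoc]
      rw [h2]
      refine Submodule.sum_mem _ fun j hj => Submodule.smul_mem _ _ (Submodule.subset_span ?_)
      have h3 := Finset.mem_range.1 hj
      exact ⟨⟨j, by omega⟩, rfl⟩
    have h2 : f (fun i => q.eval (a i) * ζ i) ∈ (pspan a ζ e).map f :=
      Submodule.mem_map_of_mem h1
    rw [hf] at h2
    exact (Submodule.mem_bot K).1 h2
  have h1 := h (Sum.inr ⟨l, hl⟩)
  change val x (∑ i, MvPolynomial.C (l i) * MvPolynomial.X i) = 0 at h1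
  rw [val_lin] at h1
  apply hfx
  rw [hfl]
  exact h1

theorem mk_eq {x y : Fin (N + 1) → K} (hx : x ≠ 0) (hy : y ≠ 0)
    (h : ∀ i j, x i * y j = x j * y i) :
    Projectivization.mk K x hx = Projectivization.mk K y hy := by
  rw [Projectivization.mk_eq_mk_iff']
  obtain ⟨j, hj⟩ := Function.ne_iff.1 hy
  have hj' : y j ≠ 0 := hj
  refine ⟨x j / y j, ?_⟩
  funext i
  rw [Pi.smul_apply, smul_eq_mul, div_mul_eq_mul_div, div_eq_iff hj']
  exact (h i j).symm

variable [IsAlgClosed K] [CharZero K]

/-- points on a line -/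
theorem line_finite {F : ι → MvPolynomial (Fin (N + 1)) K} (hF : ∀ e, IsForm (F e))
    {G : κ → MvPolynomial (Fin (N + 1)) K} (h : LineOff F G) (u v : Fin (N + 1) → K) :
    {p : ℙ K (Fin (N + 1) → K) | ∃ x : Fin (N + 1) → K, (∀ e, val x (F e) = 0) ∧
      (∃ e, val x (G e) ≠ 0) ∧ (∃ c c' : K, x = c • u + c' • v) ∧
      ∃ hx : x ≠ 0, p = Projectivization.mk K x hx}.Finite := by
  classical
  have hinf : Infinite K := inferInstance
  by_cases hli : LinearIndependent K ![u, v]
  · by_cases hL : ∀ (c c' : K) (j : ι), val (c • u + c' • v) (F j) = 0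
    · have hline : Line F u v := ⟨hli, hL⟩
      refine Set.finite_empty.subset ?_
      rintro p ⟨x, -, ⟨e, he⟩, ⟨c, c', rfl⟩, -⟩
      exact he (h u v hline c c' e)
    · push Not at hL
      obtain ⟨c0, c0', j, hj⟩ := hL
      obtain ⟨d, hd⟩ := hF j
      have hsc : ∀ (c : K) (x : Fin (N + 1) → K), val (c • x) (F j) = c ^ d * val x (F j) := by
        intro c x
        exact Pool.Agent.W602.GT.val_smul hd c x
      let P : Fin (N + 1) → Polynomial K := fun i => Polynomial.C (u i) +
        Polynomial.X * Polynomial.C (v i)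
      let P' : Fin (N + 1) → Polynomial K := fun i => Polynomial.X * Polynomial.C (u i) +
        Polynomial.C (v i)
      have hP : ∀ t : K, (fun i => (P i).eval t) = u + t • v := by
        intro t
        funext i
        simp only [P, Polynomial.eval_add, Polynomial.eval_C, Polynomial.eval_mul,
          Polynomial.eval_X, Pi.add_apply, Pi.smul_apply, smul_eq_mul]
      have hP' : ∀ t : K, (fun i => (P' i).eval t) = t • u + v := by
        intro t
        funext i
        simp only [P', Polynomial.eval_add, Polynomial.eval_C, Polynomial.eval_mul,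
          Polynomial.eval_X, Pi.add_apply, Pi.smul_apply, smul_eq_mul]
      obtain ⟨Q, hQ, -⟩ := val_poly P (F j)
      obtain ⟨Q', hQ', -⟩ := val_poly P' (F j)
      have hQ0 : Q ≠ 0 := by
        rintro rfl
        have h1 : ∀ t : K, val (u + t • v) (F j) = 0 := by
          intro t
          rw [← hP, ← hQ, Polynomial.eval_zero]
        have h2 : Q' = 0 := poly_zero fun t ht => by
          rw [hQ', hP']
          have h3 : t • u + v = t • (u + t⁻¹ • v) := by
            rw [smul_add, smul_smul, mul_inv_cancel₀ ht, one_smul]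
          rw [h3, hsc, h1, mul_zero]
        have h3 : val v (F j) = 0 := by
          have h4 := hQ' 0
          rw [hP', zero_smul, zero_add, h2, Polynomial.eval_zero] at h4
          exact h4.symm
        apply hj
        by_cases hc : c0 = 0
        · rw [hc, zero_smul, zero_add, hsc, h3, mul_zero]
        · have h4 : c0 • u + c0' • v = c0 • (u + (c0⁻¹ * c0') • v) := by
            rw [smul_add, smul_smul, mul_inv_cancel_left₀ hc]
          rw [h4, hsc, h1, mul_zero]
      have hroots : {t : K | Q.eval t = 0}.Finite := by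
        refine (Q.roots.toFinset.finite_toSet).subset fun x hx => ?_
        simp only [Finset.mem_coe, Multiset.mem_toFinset, Polynomial.mem_roots hQ0]
        exact hx
      have hsub : ∀ w : Fin (N + 1) → K, {p : ℙ K (Fin (N + 1) → K) |
          ∃ hw : w ≠ 0, p = Projectivization.mk K w hw}.Finite := by
        intro w
        refine Set.Subsingleton.finite ?_
        rintro p ⟨hw, rfl⟩ q ⟨hw', rfl⟩
        rfl
      refine ((hsub v).union (hroots.biUnion fun t _ => hsub (u + t • v))).subset ?_
      rintro p ⟨x, hx, -, ⟨c, c', rfl⟩, hx0, rfl⟩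
      by_cases hc : c = 0
      · left
        have hv0 : v ≠ 0 := by
          rintro rfl
          apply hx0
          rw [hc, zero_smul, smul_zero, add_zero]
        refine ⟨hv0, mk_eq _ _ fun i j => ?_⟩
        simp only [hc, Pi.add_apply, Pi.smul_apply, smul_eq_mul, zero_mul, zero_add]
        ring
      · right
        have h4 : c • u + c' • v = c • (u + (c⁻¹ * c') • v) := by
          rw [smul_add, smul_smul, mul_inv_cancel_left₀ hc]
        have h5 : u + (c⁻¹ * c') • v ≠ 0 := by
          intro h6
          apply hx0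
          rw [h4, h6, smul_zero]
        simp only [Set.mem_iUnion]
        refine ⟨c⁻¹ * c', ?_, h5, mk_eq _ _ fun i j => ?_⟩
        · change Q.eval _ = 0
          rw [hQ, hP]
          have h6 := hx j
          rw [h4, hsc] at h6
          exact (mul_eq_zero.1 h6).resolve_left (pow_ne_zero _ hc)
        · rw [h4]
          simp only [Pi.smul_apply, smul_eq_mul]
          ring
  · refine Set.Subsingleton.finite ?_
    rintro p ⟨x, -, -, ⟨c, c', rfl⟩, hx0, rfl⟩ q ⟨y, -, -, ⟨d, d', rfl⟩, hy0, rfl⟩
    refine mk_eq _ _ fun i j => ?_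
    have h1 : u i * v j - u j * v i = 0 := by
      by_contra h2
      exact hli (li_of_wedge h2)
    simp only [Pi.add_apply, Pi.smul_apply, smul_eq_mul]
    linear_combination (c * d' - c' * d) * h1

/-- **Cases in which the intersections with linear subspaces are finite or contain lines.** -/
theorem lines_in (hm : 2 ≤ m) (hn : n ≤ N) {a : Fin (N + 1) → K}
    (ha : Function.Injective a) {F : ι → MvPolynomial (Fin (N + 1)) K} (hF : ∀ e, IsForm (F e))
    {G : κ → MvPolynomial (Fin (N + 1)) K} (hV : Cone F ⊆ PowVal a n m)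
    (h : n < 2 * m ∨ Cone F = PowVal a n m ∨ SimpleOff a n m F G) :
    LinesInSections a n m F G := by
  classical
  rintro hL e ζ ⟨G0, hG0, hdeg, hζ⟩
  have h1 : n < 2 * m ∨ SimpleOff a n m F G := by
    rcases h with h | h
    · exact Or.inl h
    · right
      refine (data_off (m := m) (by omega) hn ha hF ?_ hL).2
      rcases h with h | h
      · exact Or.inl h
      · exact Or.inr ⟨hV, h⟩
  refine (line_finite hF hL ζ (fun i => a i * ζ i)).subset ?_
  rintro p ⟨x, hx, hxG, hx0, rfl⟩
  obtain ⟨q, hq, hxq⟩ := sec_span hx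
  have hq1 : q.natDegree ≤ 1 := by
    rcases h1 with h1 | h1
    · by_contra h2
      push Not at h2
      have h3 : 2 * m ≤ e * m := Nat.mul_le_mul_right m (by omega)
      omega
    · obtain ⟨H, hHd, hH, hHs⟩ := h1 x ⟨hx0, sec_left hx⟩ hxG
      apply hHs
      have h2 : H = q ^ m * G0 := by
        refine eq_of_nodes (k := K) (K := K) ha (hHd.trans hn) ?_ fun i => ?_
        · refine Polynomial.natDegree_mul_le.trans ?_
          have h3 : (q ^ m).natDegree ≤ m * q.natDegree := Polynomial.natDegree_pow_le
          have h4 : m * q.natDegree ≤ e * m := by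
            rw [mul_comm]
            exact Nat.mul_le_mul_right m hq
          omega
        · rw [Algebra.algebraMap_self, RingHom.id_apply, ← hH, Polynomial.eval_mul,
            Polynomial.eval_pow, ← hζ, hxq, mul_pow]
      rw [h2]
      exact Dvd.intro _ rfl
  refine ⟨x, sec_left hx, hxG, ⟨q.coeff 0, q.coeff 1, ?_⟩, hx0, rfl⟩
  funext i
  have h2 : q.eval (a i) = q.coeff 0 + q.coeff 1 * a i := by
    rw [Polynomial.eval_eq_sum_range' (n := 2) (by omega), Finset.sum_range_succ,
      Finset.sum_range_one, pow_zero, mul_one, pow_one]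
  rw [hxq, h2]
  simp only [Pi.add_apply, Pi.smul_apply, smul_eq_mul]
  ring

end Pool.Agent.U742.GR
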