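import Pool.Agent.U742.GR.Sp
import Pool.Agent.U463.PG.Main

/-!
Grouplessness and arithmetic hyperbolicity of the closed subsets of the varieties of the vectors
whose powers are the values of a polynomial, and of their intersections with linear subspaces.
-/

set_option autoImplicit false

set_option linter.unusedSectionVars false

open FF Pool.Agent.W603.LV Pool.Agent.W603.PV Pool.Agent.W602.GT Pool.Agent.Y190.BV
  Pool.Agent.Y190.GN Pool.Agent.Y190.AH Pool.Agent.Y190.QP Pool.Agent.Y190.AG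
open LinearAlgebra.Projectivization

namespace Pool.Agent.U742.GR

section

variable {K : Type} [Field K] {N n m : ℕ} {ι κ : Type}

/-- The equations of the intersection of `{F = 0}` with the linear space of the vectors
`(q (a i) ζ i)`, for the polynomials `q` of degree at most `e`: the forms `F` and the linear forms
that vanish on this space. -/
noncomputable def secF (a : Fin (N + 1) → K) (F : ι → MvPolynomial (Fin (N + 1)) K) (e : ℕ)
    (ζ : Fin (N + 1) → K) : ι ⊕ {l : Fin (N + 1) → K // ∀ q : Polynomial K, q.natDegree ≤ e →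
      ∑ i, l i * (q.eval (a i) * ζ i) = 0} → MvPolynomial (Fin (N + 1)) K :=
  Sum.elim F fun l => ∑ i, MvPolynomial.C (l.1 i) * MvPolynomial.X i

/-- The points of `{F = 0}` outside of `{G = 0}`. -/
def Pts (F : ι → MvPolynomial (Fin (N + 1)) K) (G : κ → MvPolynomial (Fin (N + 1)) K) :
    Set (ℙ K (Fin (N + 1) → K)) :=
  {p | ∃ x : Fin (N + 1) → K, (∀ e, val x (F e) = 0) ∧ (∃ e, val x (G e) ≠ 0) ∧
    ∃ hx : x ≠ 0, p = Projectivization.mk K x hx}

theorem val_lin {M : Type} [Field M] [Algebra K M] (x : Fin (N + 1) → M)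
    (l : Fin (N + 1) → K) :
    val x (∑ i, MvPolynomial.C (l i) * MvPolynomial.X i) = ∑ i, algebraMap K M (l i) * x i := by
  unfold val
  rw [map_sum]
  refine Finset.sum_congr rfl fun i _ => ?_
  rw [map_mul, MvPolynomial.aeval_C, MvPolynomial.aeval_X]

theorem sec_left {a : Fin (N + 1) → K} {F : ι → MvPolynomial (Fin (N + 1)) K} {e : ℕ}
    {ζ : Fin (N + 1) → K} {M : Type} [Field M] [Algebra K M] {x : Fin (N + 1) → M}
    (h : ∀ z, val x (secF a F e ζ z) = 0) (j : ι) : val x (F j) = 0 :=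
  h (Sum.inl j)

theorem sec_mem {a : Fin (N + 1) → K} {F : ι → MvPolynomial (Fin (N + 1)) K} {e : ℕ}
    {ζ : Fin (N + 1) → K} {M : Type} [Field M] [Algebra K M] {x : Fin (N + 1) → M}
    (h : ∀ j, val x (F j) = 0) {q : Polynomial M} (hq : q.natDegree ≤ e) {c : M}
    (hx : ∀ i, x i = c * q.eval (algebraMap K M (a i)) * algebraMap K M (ζ i)) (z) :
    val x (secF a F e ζ z) = 0 := by
  rcases z with j | ⟨l, hl⟩
  · exact h j
  · change val x (∑ i, MvPolynomial.C (l i) * MvPolynomial.X i) = 0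
    rw [val_lin]
    have h1 : ∀ j ∈ Finset.range (q.natDegree + 1),
        q.coeff j * ∑ i, algebraMap K M (l i) * (algebraMap K M (a i) ^ j *
          algebraMap K M (ζ i)) = 0 := by
      intro j hj
      have h2 := hl (Polynomial.X ^ j) (by
        rw [Polynomial.natDegree_X_pow]
        have := Finset.mem_range.1 hj
        omega)
      have h3 := congrArg (algebraMap K M) h2
      rw [map_zero, map_sum] at h3
      rw [← mul_zero (q.coeff j)]
      congr 1
      rw [← h3]
      refine Finset.sum_congr rfl fun i _ => ?_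
      rw [Polynomial.eval_pow, Polynomial.eval_X, map_mul, map_mul, map_pow]
    have h4 : ∑ i, algebraMap K M (l i) * x i = c * ∑ j ∈ Finset.range (q.natDegree + 1),
        q.coeff j * ∑ i, algebraMap K M (l i) * (algebraMap K M (a i) ^ j *
          algebraMap K M (ζ i)) := by
      simp only [Finset.mul_sum]
      rw [Finset.sum_comm]
      refine Finset.sum_congr rfl fun i _ => ?_
      rw [hx, Polynomial.eval_eq_sum_range]
      simp only [Finset.mul_sum, Finset.sum_mul]
      refine Finset.sum_congr rfl fun j _ => ?_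
      ring
    rw [h4, Finset.sum_eq_zero h1, mul_zero]

theorem map_self (k0 : Subfield K) : k0.map (algebraMap K K) = k0 := by
  ext x
  constructor
  · rintro ⟨y, hy, rfl⟩
    exact hy
  · intro hx
    exact ⟨x, hx, rfl⟩

variable [IsAlgClosed K] [CharZero K]

/-- **Rational points.** -/
theorem field_red (hm : 2 ≤ m) {a : Fin (N + 1) → K}
    (ha : Function.Injective a) {k0 : Subfield K} (hk : Moving k0 a n)
    {F : ι → MvPolynomial (Fin (N + 1)) K} {G : κ → MvPolynomial (Fin (N + 1)) K}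
    (hV : Cone F ⊆ PowVal a n m) :
    (∀ T : Finset K, (FieldPts F G k0 T).Finite) ↔
      ∀ e ζ, LinSp a n m e ζ → ∀ T : Finset K, (FieldPts (secF a F e ζ) G k0 T).Finite := by
  have hnN : n ≤ N := by
    obtain ⟨s, C, S, hs, hC, hCk, hS, hSk⟩ := hk
    have h1 := hS.trans (Finset.card_le_univ S)
    rw [Fintype.card_fin] at h1
    have h2 := hC.trans_le (Finset.card_le_univ C)
    rw [Fintype.card_fin] at h2
    omega
  constructor
  · intro h e ζ _ T
    refine (h T).subset ?_
    rintro p ⟨x, h1, h2, h3, h4⟩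
    exact ⟨x, sec_left h1, h2, h3, h4⟩
  · intro h T
    obtain ⟨A, hA, hAL, hAx⟩ := spaces_fg hm hnN ha hk T
    refine (hA.biUnion fun z hz => h z.1 z.2 (hAL z hz) T).subset ?_
    rintro p ⟨x, h1, h2, h3, hx0, h4⟩
    obtain ⟨z, hz, q, hq, hxq⟩ := hAx x hx0 (fun i => by
      have h5 := h3 i
      rwa [map_self] at h5) (sub_ext (by rw [cone_buchi ha hnN]; exact hV) hx0 h1)
    simp only [Set.mem_iUnion]
    refine ⟨z, hz, x, sec_mem h1 hq (c := 1) fun i => ?_, h2, h3, hx0, h4⟩
    rw [one_mul]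
    exact hxq i

/-- **Integral points.** -/
theorem ring_red (hm : 2 ≤ m) {a : Fin (N + 1) → K}
    (ha : Function.Injective a) {k0 : Subfield K} (hk : Moving k0 a n)
    {F : ι → MvPolynomial (Fin (N + 1)) K} {G : κ → MvPolynomial (Fin (N + 1)) K}
    (hV : Cone F ⊆ PowVal a n m) :
    (∀ T : Finset K, (RingPts F G T).Finite) ↔
      ∀ e ζ, LinSp a n m e ζ → ∀ T : Finset K, (RingPts (secF a F e ζ) G T).Finite := by
  have hnN : n ≤ N := by
    obtain ⟨s, C, S, hs, hC, hCk, hS, hSk⟩ := hk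
    have h1 := hS.trans (Finset.card_le_univ S)
    rw [Fintype.card_fin] at h1
    have h2 := hC.trans_le (Finset.card_le_univ C)
    rw [Fintype.card_fin] at h2
    omega
  constructor
  · intro h e ζ _ T
    refine (h T).subset ?_
    rintro p ⟨x, h1, h2, h3, h4, h5⟩
    exact ⟨x, sec_left h1, h2, h3, h4, h5⟩
  · intro h T
    obtain ⟨A, hA, hAL, hAx⟩ := spaces_fg hm hnN ha hk T
    refine (hA.biUnion fun z hz => h z.1 z.2 (hAL z hz) T).subset ?_
    rintro p ⟨x, h1, h2, h3, h4, hx0, h5⟩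
    obtain ⟨z, hz, q, hq, hxq⟩ := hAx x hx0 (fun i => by
      have h6 : Subring.closure (T : Set K) ≤ (Subfield.closure
          ((k0 : Set K) ∪ (T : Set K))).toSubring :=
        Subring.closure_le.2 fun z hz => Subfield.subset_closure (Or.inr hz)
      exact h6 (h3 i)) (sub_ext (by rw [cone_buchi ha hnN]; exact hV) hx0 h1)
    simp only [Set.mem_iUnion]
    refine ⟨z, hz, x, sec_mem h1 hq (c := 1) fun i => ?_, h2, h3, h4, hx0, h5⟩
    rw [one_mul]
    exact hxq i

/-- **Curves of genus at most one.** -/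
theorem genus_red (hm : 2 ≤ m) (hN : 5 * n ≤ N) {a : Fin (N + 1) → K}
    (ha : Function.Injective a) {F : ι → MvPolynomial (Fin (N + 1)) K}
    {G : κ → MvPolynomial (Fin (N + 1)) K} (hV : Cone F ⊆ PowVal a n m) :
    GenusOneOff F G ↔ ∀ e ζ, LinSp a n m e ζ → GenusOneOff (secF a F e ζ) G := by
  constructor
  · intro h e ζ _ L _ _ _ hL f hf
    exact h L hL f ⟨hf.1, sec_left hf.2.1, hf.2.2⟩
  · intro h L _ _ _ hL f hf
    obtain ⟨q, c, G0, ζ, -, -, hG0, hdeg, hζ, hfq⟩ := str_le_one hm hN ha hL hf.1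
      (sub_ext (by rw [cone_buchi ha (by omega)]; exact hV) hf.1 hf.2.1)
    exact h q.natDegree ζ ⟨G0, hG0, hdeg, hζ⟩ L hL f ⟨hf.1, sec_mem hf.2.1 le_rfl hfq, hf.2.2⟩

/-- **The multiplicative group.** -/
theorem gm_red (hm : 2 ≤ m) (hN : 5 * n ≤ N) {a : Fin (N + 1) → K}
    (ha : Function.Injective a) {F : ι → MvPolynomial (Fin (N + 1)) K}
    {G : κ → MvPolynomial (Fin (N + 1)) K} (hV : Cone F ⊆ PowVal a n m) :
    GmOff F G ↔ ∀ e ζ, LinSp a n m e ζ → GmOff (secF a F e ζ) G := by
  constructor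
  · intro h e ζ _ P hP
    exact h P ⟨hP.ne, fun t ht => sec_left (hP.mem t ht), hP.nonconst⟩
  · intro h P hP
    have hinj : Function.Injective (algebraMap (Polynomial K) (RatFunc K)) :=
      RatFunc.algebraMap_injective K
    have hinf : Infinite K := inferInstance
    have hf0 : (fun i => algebraMap (Polynomial K) (RatFunc K) (P i)) ≠ 0 := by
      intro h0
      apply hP.ne 1 one_ne_zero
      funext i
      have h1 : P i = 0 := hinj (by rw [map_zero]; exact congrFun h0 i)
      rw [h1, Polynomial.eval_zero]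
      rfl
    have hfF : ∀ e, val (fun i => algebraMap (Polynomial K) (RatFunc K) (P i)) (F e) = 0 := by
      intro e
      obtain ⟨Q, hQ1, hQ2⟩ := val_poly P (F e)
      have h0 : Q = 0 := poly_zero fun t ht => by
        rw [hQ1]
        exact hP.mem t ht e
      rw [← hQ2, h0, map_zero]
    obtain ⟨q, c, G0, ζ, -, -, hG0, hdeg, hζ, hfq⟩ := str_le_one hm hN ha (L := RatFunc K) (by
      rw [Pool.Agent.W619.PQ.canDeg_rational (x := (RatFunc.X : RatFunc K)) RatFunc.adjoin_X]
      norm_num) hf0 (sub_ext (by rw [cone_buchi ha (by omega)]; exact hV) hf0 hfF)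
    refine h q.natDegree ζ ⟨G0, hG0, hdeg, hζ⟩ P ⟨hP.ne, fun t ht z => ?_, hP.nonconst⟩
    have h1 := sec_mem (a := a) (ζ := ζ) hfF le_rfl hfq z
    obtain ⟨Q, hQ1, hQ2⟩ := val_poly P (secF a F q.natDegree ζ z)
    rw [h1] at hQ2
    have hQ0 : Q = 0 := hinj (by rw [map_zero]; exact hQ2)
    rw [← hQ1, hQ0, Polynomial.eval_zero]

/-- **Varieties with finitely many points.** -/
theorem const_of_finite {F : ι → MvPolynomial (Fin (N + 1)) K}
    {G : κ → MvPolynomial (Fin (N + 1)) K} (h : (Pts F G).Finite) {L : Type} [Field L]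
    [Algebra K L] {f : Fin (N + 1) → L} (hf : MapOff F G f) :
    ∃ (c : L) (x : Fin (N + 1) → K), ∀ i, f i = c * algebraMap K L (x i) := by
  classical
  by_contra hcon
  push Not at hcon
  obtain ⟨hf0, hfF, e0, hfG⟩ := hf
  obtain ⟨i0, hi0⟩ := Function.ne_iff.1 hf0
  have hi0' : f i0 ≠ 0 := hi0
  -- a form that vanishes at the point `p` and not at `f`
  have h1 : ∀ p : ℙ K (Fin (N + 1) → K), ∃ i j, f i * algebraMap K L (p.rep j) -
      f j * algebraMap K L (p.rep i) ≠ 0 := by
    intro p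
    by_contra h2
    push Not at h2
    obtain ⟨j0, hj0⟩ := Function.ne_iff.1 p.rep_nonzero
    have hj0' : algebraMap K L (p.rep j0) ≠ 0 := (_root_.map_ne_zero _).2 hj0
    obtain ⟨i, hi⟩ := hcon (f j0 / algebraMap K L (p.rep j0)) p.rep
    apply hi
    have h3 := h2 i j0
    rw [div_mul_eq_mul_div, eq_div_iff hj0']
    linear_combination h3
  choose i j hij using h1
  let Q : MvPolynomial (Fin (N + 1)) K := G e0 * MvPolynomial.X i0 *
    ∏ p ∈ h.toFinset, (MvPolynomial.X (i p) * MvPolynomial.C (p.rep (j p)) -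
      MvPolynomial.X (j p) * MvPolynomial.C (p.rep (i p)))
  have hQ : MvPolynomial.aeval f Q ≠ 0 := by
    simp only [Q, map_mul, map_prod, map_sub, MvPolynomial.aeval_X, MvPolynomial.aeval_C]
    refine mul_ne_zero (mul_ne_zero hfG hi0') (Finset.prod_ne_zero_iff.2 fun p _ => hij p)
  obtain ⟨z, hz, hzr⟩ := specialise f Q hQ
  simp only [Q, map_mul, map_prod, map_sub, MvPolynomial.aeval_X, MvPolynomial.aeval_C,
    Algebra.algebraMap_self, RingHom.id_apply] at hz
  have hz1 := left_ne_zero_of_mul hz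
  have hz2 := right_ne_zero_of_mul hz
  have hz0 : z ≠ 0 := by
    intro h0
    apply right_ne_zero_of_mul hz1
    rw [h0]
    rfl
  have hmem : Projectivization.mk K z hz0 ∈ Pts F G :=
    ⟨z, fun e => hzr _ (hfF e), ⟨e0, left_ne_zero_of_mul hz1⟩, hz0, rfl⟩
  rw [Finset.prod_ne_zero_iff] at hz2
  have h3 := hz2 _ (h.mem_toFinset.2 hmem)
  apply h3
  obtain ⟨u, hu⟩ := Projectivization.exists_smul_eq_mk_rep K z hz0
  rw [← hu]
  simp only [Pi.smul_apply, Units.smul_def, smul_eq_mul]
  ring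

end

end Pool.Agent.U742.GR
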