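import Pool.Agent.U742.WD.Ds
import Pool.Agent.Y190.AH.Ht

/-!
Linear subspaces of the varieties of the vectors whose powers are the values of a polynomial, which
contain the rational points and the curves of genus at most one.
-/

set_option autoImplicit false

open Polynomial FF Pool.Agent.W603.LV Pool.Agent.W602.GT Pool.Agent.Y190.BV
  Pool.Agent.Y190.GN Pool.Agent.Y190.AH Pool.Agent.Y216.SV Pool.Agent.U742.WD

namespace Pool.Agent.U742.GR

section

variable {K : Type} [Field K] [IsAlgClosed K] [CharZero K] {N n m : ℕ}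

/-- polynomials without multiple factors over function fields of genus at most one -/
theorem const_free {L : Type} [Field L] [Algebra K L] [IsFF K L] (hm : 2 ≤ m)
    (hcan : canDeg K L ≤ 0) (hnN : n ≤ N) {a : Fin (N + 1) → K} (ha : Function.Injective a)
    {G : L[X]} (hG : G ≠ 0) (hd : G.natDegree ≤ n)
    (hfree : ∀ p : L[X], Irreducible p → ¬ p ^ m ∣ G) {J : Finset (Fin (N + 1))}
    (hJ : 4 * n < J.card) (hpow : ∀ i ∈ J, ∃ w, w ^ m = G.eval (algebraMap K L (a i))) :
    ∃ (g : L) (G1 : K[X]), g ≠ 0 ∧ G = C g * G1.map (algebraMap K L) := by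
  classical
  obtain ⟨i0, hi0⟩ : ∃ i, G.eval (algebraMap K L (a i)) ≠ 0 := by
    by_contra hcon
    push Not at hcon
    exact hG (eq_of_nodes ha (hd.trans hnN) (by rw [natDegree_zero]; omega) fun i => by
      rw [hcon i, eval_zero])
  have h1 : ∀ i, ∃ c : K, G.eval (algebraMap K L (a i)) / G.eval (algebraMap K L (a i0)) =
      algebraMap K L c := by
    intro i
    have h2 := hgt_bound_lin (q := J.card) hm hJ 0 (fun i => a (J.orderEmbOfFin rfl i))
      (ha.comp (J.orderEmbOfFin rfl).injective) G hG hd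
      (fun i => hpow _ (Finset.orderEmbOfFin_mem _ _ _)) hfree _ _
      (hgt_const (a i)).le (hgt_const (a i0)).le
    rw [hbd_eq, max_eq_right hcan, mul_zero] at h2
    exact const_of_hgt h2
  choose c hc using h1
  have hu : Set.InjOn a (Finset.univ : Finset (Fin (N + 1))) := ha.injOn
  refine ⟨G.eval (algebraMap K L (a i0)), Lagrange.interpolate Finset.univ a c, hi0, ?_⟩
  refine eq_of_nodes ha (hd.trans hnN) ?_ fun i => ?_
  · refine (natDegree_C_mul_le _ _).trans ?_
    refine natDegree_map_le.trans ?_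
    have h2 := Lagrange.degree_interpolate_lt c hu
    rw [Finset.card_univ, Fintype.card_fin] at h2
    rw [natDegree_le_iff_degree_le]
    exact Order.le_of_lt_succ (by exact_mod_cast h2)
  · rw [eval_mul, eval_C, eval_map_algebraMap, aeval_algebraMap_apply_eq_algebraMap_eval,
      Lagrange.eval_interpolate_at_node c hu (Finset.mem_univ i), ← hc, mul_div_cancel₀ _ hi0]

/-- **Curves of genus at most one lie in linear subspaces.** -/
theorem str_le_one {L : Type} [Field L] [Algebra K L] [IsFF K L] (hm : 2 ≤ m)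
    (hN : 5 * n ≤ N) {a : Fin (N + 1) → K} (ha : Function.Injective a)
    (hcan : canDeg K L ≤ 0) {f : Fin (N + 1) → L} (hf0 : f ≠ 0)
    (hf : ∀ l : Rel a n, val f (buchi a n m l) = 0) :
    ∃ (q : L[X]) (c : L) (G0 : K[X]) (ζ : Fin (N + 1) → K), q.Monic ∧ c ≠ 0 ∧
      G0 ≠ 0 ∧ q.natDegree * m + G0.natDegree ≤ n ∧ (∀ i, ζ i ^ m = G0.eval (a i)) ∧
      ∀ i, f i = c * q.eval (algebraMap K L (a i)) * algebraMap K L (ζ i) := by
  classical
  have hnN : n ≤ N := by omega
  have hH0 : IQ a hnN m f ≠ 0 := IQ_ne (by omega) ha hnN hf0 hf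
  obtain ⟨p, Q, hpQ, hfree⟩ := exists_free_irr (m := m) (by omega) _ (IQ a hnN m f) hH0 le_rfl
  have hp0 : p ≠ 0 := by
    rintro rfl
    rw [zero_pow (by omega), zero_mul] at hpQ
    exact hH0 hpQ
  have hQ0 : Q ≠ 0 := by
    rintro rfl
    rw [mul_zero] at hpQ
    exact hH0 hpQ
  have hdH : m * p.natDegree + Q.natDegree ≤ n := by
    have h1 := IQ_natDegree ha hnN m f
    rw [hpQ, natDegree_mul (pow_ne_zero _ hp0) hQ0, natDegree_pow] at h1
    exact h1
  let J : Finset (Fin (N + 1)) := Finset.univ.filter fun i => p.eval (algebraMap K L (a i)) ≠ 0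
  have hJ : 4 * n < J.card := by
    have h1 : (Finset.univ.filter fun i : Fin (N + 1) => ¬ p.eval (algebraMap K L (a i)) ≠ 0).card ≤
        p.natDegree := by
      refine le_trans ?_ (p.card_roots' )
      refine le_trans ?_ (Multiset.toFinset_card_le _)
      refine Finset.card_le_card_of_injOn (fun i => algebraMap K L (a i)) (fun i hi => ?_)
        fun i _ j _ h => ha ((algebraMap K L).injective h)
      have h2 := (Finset.mem_filter.1 (Finset.mem_coe.1 hi)).2
      push Not at h2
      simp only [Finset.mem_coe, Multiset.mem_toFinset, mem_roots hp0]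
      exact h2
    have h3 := Finset.card_filter_add_card_filter_not (s := (Finset.univ : Finset (Fin (N + 1))))
      (fun i => p.eval (algebraMap K L (a i)) ≠ 0)
    rw [Finset.card_univ, Fintype.card_fin] at h3
    have h4 : 2 * p.natDegree ≤ m * p.natDegree := Nat.mul_le_mul_right _ hm
    have h5 : J.card = (Finset.univ.filter fun i : Fin (N + 1) =>
      p.eval (algebraMap K L (a i)) ≠ 0).card := rfl
    omega
  obtain ⟨g, G1, hg, hG1⟩ := const_free hm hcan hnN ha hQ0 (by omega) hfree hJ (fun i hi => by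
    have hpi : p.eval (algebraMap K L (a i)) ≠ 0 := (Finset.mem_filter.1 hi).2
    refine ⟨f i / p.eval (algebraMap K L (a i)), ?_⟩
    rw [div_pow, ← IQ_eval ha hnN hf i, hpQ, eval_mul, eval_pow,
      mul_div_cancel_left₀ _ (pow_ne_zero _ hpi)])
  have hG10 : G1 ≠ 0 := by
    rintro rfl
    rw [Polynomial.map_zero, mul_zero] at hG1
    exact hQ0 hG1
  refine str_of_class hm hnN ha hf0 hf hG10 (R := p * G1.map (algebraMap K L)) hg ?_
  rw [hpQ, hG1]
  obtain ⟨r, rfl⟩ : ∃ r, m = r + 1 := ⟨m - 1, by omega⟩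
  rw [Nat.add_sub_cancel]
  ring

/-- The vectors `(p (a i) ζ i)`, for the polynomials `p` of degree at most `e`, form a linear
subspace of the variety of the vectors whose `m`-th powers are the values of a polynomial of degree
at most `n`: for some nonzero polynomial `G0` of degree at most `n - e m` the powers `ζ i ^ m` are the
values `G0 (a i)`. -/
def LinSp (a : Fin (N + 1) → K) (n m e : ℕ) (ζ : Fin (N + 1) → K) : Prop :=
  ∃ G0 : K[X], G0 ≠ 0 ∧ e * m + G0.natDegree ≤ n ∧ ∀ i, ζ i ^ m = G0.eval (a i)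

/-- **The rational points lie in finitely many linear subspaces.** -/
theorem spaces_fg (hm : 2 ≤ m) (hnN : n ≤ N) {a : Fin (N + 1) → K} (ha : Function.Injective a)
    {k0 : Subfield K} (hk : Moving k0 a n) (T : Finset K) :
    ∃ A : Set (ℕ × (Fin (N + 1) → K)), A.Finite ∧ (∀ z ∈ A, LinSp a n m z.1 z.2) ∧
      ∀ x : Fin (N + 1) → K, x ≠ 0 →
        (∀ i, x i ∈ Subfield.closure ((k0 : Set K) ∪ (T : Set K))) →
        (∀ l : Rel a n, val x (buchi a n m l) = 0) →
        ∃ z ∈ A, ∃ q : K[X], q.natDegree ≤ z.1 ∧ ∀ i, x i = q.eval (a i) * z.2 i := by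
  classical
  obtain ⟨A0, hA0, hAn, hAx⟩ := classes_fg (m := m) hm hnN ha hk T
  have hfr : ∀ Q : K[X], ∃ S G : K[X], Q ≠ 0 → Q = S ^ m * G := by
    intro Q
    by_cases hQ : Q = 0
    · exact ⟨0, 0, fun h => absurd hQ h⟩
    · obtain ⟨p, G, h1, -⟩ := exists_free_irr (m := m) (by omega) _ Q hQ le_rfl
      exact ⟨p, G, fun _ => h1⟩
  choose S G hSG using hfr
  let Z : K[X] → Set (Fin (N + 1) → K) := fun Q => {ζ | ∀ i, ζ i ^ m = (G Q).eval (a i)}
  have hZ : ∀ Q, (Z Q).Finite := by
    intro Q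
    have h1 : ∀ c : K, {z : K | z ^ m = c}.Finite := by
      intro c
      have h2 : (X ^ m - C c : K[X]) ≠ 0 := X_pow_sub_C_ne_zero (by omega) c
      refine ((X ^ m - C c : K[X]).roots.toFinset.finite_toSet).subset fun z hz => ?_
      simp only [Finset.mem_coe, Multiset.mem_toFinset, mem_roots h2, IsRoot.def, eval_sub,
        eval_pow, eval_X, eval_C]
      exact sub_eq_zero.2 hz
    refine (Set.Finite.pi' (ι := Fin (N + 1)) (t := fun i => {z : K | z ^ m = (G Q).eval (a i)})
      fun i => h1 _).subset ?_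
    intro ζ hζ i
    exact hζ i
  refine ⟨⋃ Q ∈ {Q | Q ∈ A0 ∧ G Q ≠ 0 ∧ (G Q).natDegree ≤ n},
    (fun ζ => ((n - (G Q).natDegree) / m, ζ)) '' Z Q, ?_, ?_, ?_⟩
  · exact (hA0.subset fun Q hQ => hQ.1).biUnion fun Q _ => (hZ Q).image _
  · rintro z hz
    simp only [Set.mem_iUnion] at hz
    obtain ⟨Q, ⟨-, hG0, hGn⟩, ζ, hζ, rfl⟩ := hz
    refine ⟨G Q, hG0, ?_, hζ⟩
    have h1 := Nat.div_mul_le_self (n - (G Q).natDegree) m
    dsimp only
    omega
  · intro x hx0 hxT hxb
    obtain ⟨Q, hQ, c, p, hxp⟩ := hAx x hx0 hxT hxb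
    have hQ0 := (hAn Q hQ).1
    have hH0 : IQ a hnN m x ≠ 0 := IQ_ne (by omega) ha hnN hx0 hxb
    have hc : c ≠ 0 := by
      rintro rfl
      rw [C_0, zero_mul] at hxp
      exact hH0 hxp
    obtain ⟨d, hd⟩ := IsAlgClosed.exists_pow_nat_eq c (n := m) (by omega)
    have hxq : IQ a hnN m x = (C d * (p * S Q)) ^ m * G Q := by
      rw [hxp]
      conv_lhs => rw [hSG Q hQ0]
      rw [← hd, C_pow]
      ring
    set q : K[X] := C d * (p * S Q) with hqd
    have hq0 : q ≠ 0 := by
      intro h
      rw [h, zero_pow (by omega), zero_mul] at hxq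
      exact hH0 hxq
    have hG0 : G Q ≠ 0 := by
      intro h
      rw [h, mul_zero] at hxq
      exact hH0 hxq
    have hdeg : m * q.natDegree + (G Q).natDegree ≤ n := by
      have h1 := IQ_natDegree ha hnN m x
      rw [hxq, natDegree_mul (pow_ne_zero _ hq0) hG0, natDegree_pow] at h1
      exact h1
    have hev : ∀ i, x i ^ m = q.eval (a i) ^ m * (G Q).eval (a i) := by
      intro i
      have h1 := IQ_eval ha hnN hxb i
      rw [hxq, Algebra.algebraMap_self, RingHom.id_apply, eval_mul, eval_pow] at h1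
      exact h1.symm
    choose r hr using fun i => IsAlgClosed.exists_pow_nat_eq ((G Q).eval (a i)) (n := m)
      (by omega)
    refine ⟨((n - (G Q).natDegree) / m, fun i => if q.eval (a i) = 0 then r i else
      x i / q.eval (a i)), ?_, q, ?_, fun i => ?_⟩
    · simp only [Set.mem_iUnion]
      refine ⟨Q, ⟨hQ, hG0, by omega⟩, _, fun i => ?_, rfl⟩
      by_cases hi : q.eval (a i) = 0
      · simp only [hi, if_true]
        exact hr i
      · simp only [hi, if_false]
        rw [div_pow, hev, mul_div_cancel_left₀ _ (pow_ne_zero _ hi)]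
    · dsimp only
      rw [Nat.le_div_iff_mul_le (by omega), mul_comm]
      omega
    · dsimp only
      by_cases hi : q.eval (a i) = 0
      · rw [if_pos hi, hi, zero_mul]
        have h1 := hev i
        rw [hi, zero_pow (by omega), zero_mul] at h1
        exact pow_eq_zero_iff (by omega) |>.1 h1
      · rw [if_neg hi, mul_div_cancel₀ _ hi]

end

end Pool.Agent.U742.GR
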